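import Mathlib

namespace Pool.Agent.Results.MP_29e051_nt.NotAutomatic

open Finset

/-- The number `A_k = ∑_{n ≥ 1} 1 / (k ^ n - 1)`. -/
noncomputable def lambertValue (k : ℕ) : ℝ := ∑' n : ℕ, 1 / ((k : ℝ) ^ (n + 1) - 1)

/-- The sequence `a` is `m`-automatic: there is a deterministic finite automaton with output
(finite state set `Q`, transition map `δ`, initial state `q₀`, output map `out`) which outputs
`a n` after reading the base-`m` digits of `n`. We allow the automaton to read the digits either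
starting from the most significant one or starting from the least significant one. -/
def IsAutomatic (m : ℕ) (a : ℕ → ℕ) : Prop :=
  ∃ (Q : Type) (_ : Fintype Q) (δ : Q → ℕ → Q) (q₀ : Q) (out : Q → ℕ),
    (∀ n : ℕ, a n = out ((Nat.digits m n).reverse.foldl δ q₀)) ∨
    (∀ n : ℕ, a n = out ((Nat.digits m n).foldl δ q₀))

/-- Sanity check: constant sequences are automatic. -/
lemma isAutomatic_const (m c : ℕ) : IsAutomatic m (fun _ => c) :=
  ⟨Unit, inferInstance, fun _ _ => (), (), fun _ => c, Or.inl (fun _ => rfl)⟩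

/-- Sanity check: the Thue-Morse sequence is `2`-automatic. -/
lemma isAutomatic_thueMorse : IsAutomatic 2 (fun n => (Nat.digits 2 n).sum % 2) := by
  refine ⟨Fin 2, inferInstance, fun s d => s + Fin.ofNat 2 d, 0, fun s => s, Or.inr ?_⟩
  intro n
  have key : ∀ (l : List ℕ) (s : Fin 2),
      ((l.foldl (fun s d => s + Fin.ofNat 2 d) s : Fin 2) : ℕ) = (l.sum + s) % 2 := by
    intro l
    induction l with
    | nil => intro s; simp [Nat.mod_eq_of_lt s.2]
    | cons d l ih =>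
      intro s
      rw [List.foldl_cons, ih, List.sum_cons, Fin.val_add, Fin.val_ofNat]
      omega
  have h := key (Nat.digits 2 n) 0
  rw [Fin.val_zero, add_zero] at h
  exact h.symm

/-- Sanity check: the series defining `lambertValue k` converges. -/
lemma summable_lambertValue (k : ℕ) (hk : 2 ≤ k) :
    Summable (fun n : ℕ => 1 / ((k : ℝ) ^ (n + 1) - 1)) := by
  have hk' : (2 : ℝ) ≤ k := by exact_mod_cast hk
  have h1 : Summable (fun n : ℕ => (2 / k : ℝ) * (1 / (k : ℝ)) ^ n) := by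
    apply Summable.mul_left
    apply summable_geometric_of_lt_one (by positivity)
    rw [div_lt_one (by positivity)]
    linarith
  have h3 : ∀ n : ℕ, (2 : ℝ) ≤ (k : ℝ) ^ (n + 1) := by
    intro n
    calc (2 : ℝ) ≤ k := hk'
      _ = (k : ℝ) ^ 1 := (pow_one _).symm
      _ ≤ (k : ℝ) ^ (n + 1) := pow_le_pow_right₀ (by linarith) (by omega)
  apply Summable.of_nonneg_of_le _ _ h1
  · intro n
    have := h3 n
    apply div_nonneg (by norm_num)
    linarith
  · intro n
    have h4 := h3 n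
    rw [one_div_pow, div_mul_div_comm, mul_one, ← pow_succ', div_le_div_iff₀ (by linarith)
      (by positivity)]
    linarith

/-- divisor bound: if `y ≤ D ^ 2` then `τ(y) ≤ 2 * #{d ≤ D : d ∣ y}`. -/
lemma card_divisors_le (y D : ℕ) (hy : 0 < y) (hD : y ≤ D ^ 2) :
    y.divisors.card ≤ 2 * ((Icc 1 D).filter (fun d => d ∣ y)).card := by
  classical
  have hsplit := Finset.card_filter_add_card_filter_not (s := y.divisors) (fun d => d ≤ D)
  have h1 : (y.divisors.filter (fun d => d ≤ D)).card ≤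
      ((Icc 1 D).filter (fun d => d ∣ y)).card := by
    apply Finset.card_le_card
    intro d hd
    simp only [mem_filter, Nat.mem_divisors, mem_Icc] at hd ⊢
    exact ⟨⟨Nat.pos_of_dvd_of_pos hd.1.1 hy, hd.2⟩, hd.1.1⟩
  have h2 : (y.divisors.filter (fun d => ¬ d ≤ D)).card ≤
      ((Icc 1 D).filter (fun d => d ∣ y)).card := by
    apply Finset.card_le_card_of_injOn (fun d => y / d)
    · intro d hd
      simp only [coe_filter, Nat.mem_divisors, Set.mem_ofPred_eq, mem_Icc] at hd ⊢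
      obtain ⟨⟨hdy, -⟩, hDd⟩ := hd
      push Not at hDd
      refine ⟨⟨Nat.div_pos (Nat.le_of_dvd hy hdy) (by omega), ?_⟩, Nat.div_dvd_of_dvd hdy⟩
      rw [Nat.div_le_iff_le_mul_add_pred (by omega)]
      nlinarith
    · intro d hd d' hd' hdd
      simp only [coe_filter, Nat.mem_divisors, Set.mem_ofPred_eq] at hd hd'
      simp only at hdd
      have e1 := Nat.div_mul_cancel hd.1.1
      have e2 := Nat.div_mul_cancel hd'.1.1
      have hpos : 0 < y / d := Nat.div_pos (Nat.le_of_dvd hy hd.1.1) (by omega)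
      rw [← hdd] at e2
      have : y / d * d = y / d * d' := by rw [e1, e2]
      exact Nat.eq_of_mul_eq_mul_left hpos this
  omega

/-- number of solutions of `d ∣ x + M t`, `t < T`. -/
lemma count_solutions (x M d T G : ℕ) (hd : 0 < d)
    (hG : ∀ h, h ∣ x → h ∣ M → h ≤ G) :
    (((range T).filter (fun t => d ∣ x + M * t)).card : ℝ) ≤ G * ((T : ℝ) / d + 1) := by
  classical
  by_cases hex : ∃ t0, d ∣ x + M * t0
  · obtain ⟨t0, ht0⟩ := hex
    set h := Nat.gcd M d with hh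
    have hhM : h ∣ M := Nat.gcd_dvd_left _ _
    have hhd : h ∣ d := Nat.gcd_dvd_right _ _
    have hhpos : 0 < h := Nat.gcd_pos_of_pos_right _ hd
    have hhx : h ∣ x := by
      have h1 : h ∣ x + M * t0 := hhd.trans ht0
      exact (Nat.dvd_add_left (hhM.mul_right t0)).mp h1
    have hle : h ≤ G := hG h hhx hhM
    set r := d / h with hr
    have hrpos : 0 < r := Nat.div_pos (Nat.le_of_dvd hd hhd) hhpos
    have hrd : h * r = d := Nat.mul_div_cancel' hhd
    have hsub : ((range T).filter (fun t => d ∣ x + M * t)) ⊆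
        ((range T).filter (fun t => t ≡ t0 [MOD r])) := by
      intro t ht
      simp only [mem_filter, mem_range] at ht ⊢
      refine ⟨ht.1, ?_⟩
      have h1 : x + M * t ≡ x + M * t0 [MOD d] :=
        ((Nat.modEq_zero_iff_dvd).mpr ht.2).trans ((Nat.modEq_zero_iff_dvd).mpr ht0).symm
      have h2 : M * t ≡ M * t0 [MOD d] := Nat.ModEq.add_left_cancel' x h1
      have h3 := Nat.ModEq.cancel_left_div_gcd hd h2
      rw [Nat.gcd_comm] at h3
      exact h3
    have hcard := Finset.card_le_card hsub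
    have hcount : ((range T).filter (fun t => t ≡ t0 [MOD r])).card ≤ T / r + 1 := by
      rw [← Nat.count_eq_card_filter_range, Nat.count_modEq_card _ hrpos]
      split_ifs <;> omega
    have h4 : ((((range T).filter (fun t => d ∣ x + M * t)).card : ℕ) : ℝ) ≤ (T / r : ℕ) + 1 := by
      exact_mod_cast hcard.trans hcount
    have h5 : ((T / r : ℕ) : ℝ) ≤ (T : ℝ) / r := Nat.cast_div_le
    have h6 : (T : ℝ) / r = h * ((T : ℝ) / d) := by
      have : (d : ℝ) = h * r := by exact_mod_cast hrd.symm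
      rw [this]
      have hh0 : (h : ℝ) ≠ 0 := by exact_mod_cast hhpos.ne'
      have hr0 : (r : ℝ) ≠ 0 := by exact_mod_cast hrpos.ne'
      field_simp
    have h7 : (h : ℝ) ≤ G := by exact_mod_cast hle
    have h8 : (1 : ℝ) ≤ G := by
      have : (1 : ℝ) ≤ h := by exact_mod_cast hhpos
      linarith
    have h9 : 0 ≤ (T : ℝ) / d := by positivity
    nlinarith
  · push Not at hex
    have : ((range T).filter (fun t => d ∣ x + M * t)) = ∅ := by
      apply Finset.filter_false_of_mem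
      intro t _
      exact hex t
    rw [this]
    simp only [card_empty, Nat.cast_zero]
    positivity

/-- average of the divisor function along an arithmetic progression -/
lemma avg_tau (x M G b : ℕ) (hx : 0 < x) (hG : ∀ h, h ∣ x → h ∣ M → h ≤ G)
    (hb : x + M * 2 ^ b ≤ (2 ^ b) ^ 2) :
    ∑ t ∈ range (2 ^ b), ((x + M * t).divisors.card : ℝ) ≤ 2 ^ b * (2 * G * (2 + b)) := by
  classical
  have h1 : ∑ t ∈ range (2 ^ b), ((x + M * t).divisors.card : ℝ) ≤
      ∑ t ∈ range (2 ^ b), 2 * (((Icc 1 (2 ^ b)).filter (fun d => d ∣ x + M * t)).card : ℝ) := by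
    apply Finset.sum_le_sum
    intro t ht
    have ht' : t < 2 ^ b := mem_range.mp ht
    have := card_divisors_le (x + M * t) (2 ^ b) (by omega)
      ((Nat.add_le_add_left (Nat.mul_le_mul_left M ht'.le) x).trans hb)
    exact_mod_cast this
  have h2 : ∑ t ∈ range (2 ^ b), 2 * (((Icc 1 (2 ^ b)).filter (fun d => d ∣ x + M * t)).card : ℝ)
      = 2 * ∑ d ∈ Icc 1 (2 ^ b), (((range (2 ^ b)).filter (fun t => d ∣ x + M * t)).card : ℝ) := by
    rw [← Finset.mul_sum]
    congr 1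
    have := Finset.sum_card_bipartiteAbove_eq_sum_card_bipartiteBelow
      (s := range (2 ^ b)) (t := Icc 1 (2 ^ b)) (fun t d => d ∣ x + M * t)
    simp only [Finset.bipartiteAbove, Finset.bipartiteBelow] at this
    exact_mod_cast this
  have h3 : ∑ d ∈ Icc 1 (2 ^ b), (((range (2 ^ b)).filter (fun t => d ∣ x + M * t)).card : ℝ)
      ≤ ∑ d ∈ (Icc 1 (2 ^ b) : Finset ℕ), (G : ℝ) * (((2 ^ b : ℕ) : ℝ) / (d : ℝ) + 1) := by
    apply Finset.sum_le_sum
    intro d hd
    have hd' := (mem_Icc.mp hd).1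
    exact count_solutions x M d (2 ^ b) G (by omega) hG
  have h4 : ∑ d ∈ (Icc 1 (2 ^ b) : Finset ℕ), (G : ℝ) * (((2 ^ b : ℕ) : ℝ) / (d : ℝ) + 1)
      = G * (2 ^ b * ∑ d ∈ (Icc 1 (2 ^ b) : Finset ℕ), (1 : ℝ) / (d : ℝ) + 2 ^ b) := by
    rw [← Finset.mul_sum, Finset.sum_add_distrib, Finset.mul_sum]
    simp [div_eq_mul_inv]
  have h5 : ∑ d ∈ (Icc 1 (2 ^ b) : Finset ℕ), (1 : ℝ) / (d : ℝ) ≤ 1 + b := by
    have h6 := harmonic_le_one_add_log (2 ^ b)
    have h7 : ((harmonic (2 ^ b) : ℚ) : ℝ) = ∑ d ∈ (Icc 1 (2 ^ b) : Finset ℕ), (1 : ℝ) / (d : ℝ) := by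
      rw [harmonic_eq_sum_Icc]
      push_cast
      simp [one_div]
    rw [h7] at h6
    refine h6.trans ?_
    have h8 : Real.log ((2 ^ b : ℕ) : ℝ) = b * Real.log 2 := by
      push_cast
      rw [Real.log_pow]
    rw [h8]
    have h9 : Real.log 2 < 1 := by
      have := Real.log_two_lt_d9
      linarith
    have h10 : (0 : ℝ) ≤ b := Nat.cast_nonneg b
    nlinarith
  have hG0 : (0 : ℝ) ≤ G := Nat.cast_nonneg G
  have h2b : (0 : ℝ) < 2 ^ b := by positivity
  calc ∑ t ∈ range (2 ^ b), ((x + M * t).divisors.card : ℝ)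
      ≤ 2 * ∑ d ∈ Icc 1 (2 ^ b), (((range (2 ^ b)).filter (fun t => d ∣ x + M * t)).card : ℝ) := by
        rw [← h2]; exact h1
    _ ≤ 2 * (G * (2 ^ b * ∑ d ∈ (Icc 1 (2 ^ b) : Finset ℕ), (1 : ℝ) / (d : ℝ) + 2 ^ b)) := by
        rw [← h4]; linarith
    _ ≤ 2 * (G * (2 ^ b * (1 + b) + 2 ^ b)) := by
        gcongr
    _ = 2 ^ b * (2 * G * (2 + b)) := by ring

lemma exists_primes (P : ℕ) (hP : 0 < P) :
    ∃ p : ℕ → ℕ, ∀ r, (p r).Prime ∧ 2 ^ r * P < p r ∧ p r ≤ 2 ^ (r + 1) * P := by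
  have h : ∀ r, ∃ q : ℕ, q.Prime ∧ 2 ^ r * P < q ∧ q ≤ 2 ^ (r + 1) * P := by
    intro r
    obtain ⟨q, hq, h1, h2⟩ := Nat.exists_prime_lt_and_le_two_mul (2 ^ r * P) (by positivity)
    exact ⟨q, hq, h1, by rw [pow_succ]; linarith⟩
  choose p hp using h
  exact ⟨p, hp⟩

lemma card_divisors_prod_pow (p : ℕ → ℕ) (hp : ∀ r, (p r).Prime) (hinj : Function.Injective p)
    (k : ℕ) (hk : 1 ≤ k) (o m : ℕ) :
    ((∏ t ∈ range m, p (o + t)) ^ (k - 1)).divisors.card = k ^ m := by
  induction m with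
  | zero => simp
  | succ m ih =>
    rw [Finset.prod_range_succ, mul_pow]
    have hcop : Nat.Coprime ((∏ t ∈ range m, p (o + t)) ^ (k - 1)) ((p (o + m)) ^ (k - 1)) := by
      apply Nat.Coprime.pow
      apply Nat.Coprime.prod_left
      intro t ht
      rw [Nat.coprime_primes (hp _) (hp _)]
      intro heq
      have := hinj heq
      have := mem_range.mp ht
      omega
    rw [Nat.Coprime.card_divisors_mul hcop, ih, Nat.divisors_prime_pow (hp _)]
    rw [card_map, card_range, pow_succ]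
    congr 1
    omega

lemma construct (k L c i S : ℕ) (hk : 2 ≤ k) (hL : 0 < L) (hi : i < L) (hS : 2 * L ≤ 2 ^ S) :
    ∃ a M : ℕ, 0 < M ∧ M ≤ 2 ^ ((4 * L ^ 2 + S) * (4 * L ^ 2 * k)) ∧ L + c ≤ a ∧
      a < M * (c + 2) ∧ (∀ t, a + M * t ≡ c [MOD L]) ∧
      (∀ t, ∀ j < 2 * L, j ≠ i → k ^ (2 * L) ∣ (a + j + M * t).divisors.card) ∧
      (∀ j < 2 ^ S, (j = i ∨ 2 * L ≤ j) → ∀ h, h ∣ a + j → h ∣ M → h ≤ L) := by
  classical
  obtain ⟨p, hp⟩ := exists_primes (2 ^ S) (by positivity)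
  have hprime : ∀ r, (p r).Prime := fun r => (hp r).1
  have hgt : ∀ r, 2 ^ S < p r := by
    intro r
    have h1 := (hp r).2.1
    have h2 : 1 ≤ 2 ^ r := Nat.one_le_two_pow
    nlinarith [Nat.one_le_two_pow (n := S)]
  have hmono : StrictMono p := by
    apply strictMono_nat_of_lt_succ
    intro r
    exact (hp r).2.2.trans_lt (hp (r + 1)).2.1
  have hinj := hmono.injective
  set q : ℕ → ℕ := fun j => ∏ t ∈ range (2 * L), p (2 * L * j + t) with hq
  -- prime divisors of `q j`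
  have hqpos : ∀ j, 0 < q j := fun j => Finset.prod_pos (fun t _ => (hprime _).pos)
  have hqone : ∀ j, 1 < q j := by
    intro j
    have h0 : p (2 * L * j + 0) ∣ q j := Finset.dvd_prod_of_mem _ (mem_range.mpr (by omega))
    exact (hprime _).one_lt.trans_le (Nat.le_of_dvd (hqpos j) h0)
  have hqprime : ∀ j r, Nat.Prime r → r ∣ q j → 2 ^ S < r := by
    intro j r hr hrq
    obtain ⟨t, _, ht⟩ := (Prime.dvd_finsetProd_iff hr.prime _).mp hrq
    rw [Nat.prime_dvd_prime_iff_eq hr (hprime _)] at ht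
    rw [ht]
    exact hgt _
  have hqcop : ∀ j j', j ≠ j' → Nat.Coprime (q j) (q j') := by
    intro j j' hjj
    apply Nat.Coprime.prod_left
    intro t ht
    apply Nat.Coprime.prod_right
    intro t' ht'
    rw [Nat.coprime_primes (hprime _) (hprime _)]
    intro heq
    have h1 := hinj heq
    have ht1 := mem_range.mp ht
    have ht1' := mem_range.mp ht'
    apply hjj
    have h2 : (2 * L * j + t) / (2 * L) = j := by
      rw [Nat.mul_add_div (by omega), Nat.div_eq_of_lt ht1, add_zero]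
    have h3 : (2 * L * j' + t') / (2 * L) = j' := by
      rw [Nat.mul_add_div (by omega), Nat.div_eq_of_lt ht1', add_zero]
    rw [← h2, ← h3, h1]
  have hLcop : ∀ j, Nat.Coprime L (q j) := by
    intro j
    rw [Nat.coprime_iff_gcd_eq_one]
    by_contra hne
    obtain ⟨r, hr, hrd⟩ := Nat.exists_prime_and_dvd hne
    have h1 := hqprime j r hr (hrd.trans (Nat.gcd_dvd_right _ _))
    have h2 := Nat.le_of_dvd hL (hrd.trans (Nat.gcd_dvd_left _ _))
    omega
  set s : ℕ → ℕ := fun j => if j = i then L else (q j) ^ k with hs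
  have hsi : s i = L := by simp [hs]
  have hsj : ∀ j, j ≠ i → s j = (q j) ^ k := by intro j hj; simp [hs, hj]
  have hspos : ∀ j, 0 < s j := by
    intro j
    by_cases hj : j = i
    · rw [hj, hsi]; exact hL
    · rw [hsj j hj]; exact pow_pos (hqpos j) _
  set rr : ℕ → ℕ := fun j => if j = i then c else (q j) ^ (k - 1) + (q j) ^ k * j - j with hrr
  have hcop : Set.Pairwise (↑(range (2 * L)) : Set ℕ) (Function.onFun Nat.Coprime s) := by
    intro j _ j' _ hjj
    show Nat.Coprime (s j) (s j')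
    by_cases hj : j = i
    · have hj' : j' ≠ i := fun h => hjj (hj.trans h.symm)
      rw [hj, hsi, hsj j' hj']
      exact (hLcop j').pow_right k
    · by_cases hj' : j' = i
      · rw [hj', hsi, hsj j hj]
        exact ((hLcop j).pow_right k).symm
      · rw [hsj j hj, hsj j' hj']
        exact (hqcop j j' hjj).pow k k
  obtain ⟨a0, ha0⟩ : ∃ a0 : ℕ, (∀ j ∈ range (2 * L), a0 ≡ rr j [MOD s j]) ∧
      a0 < ∏ j ∈ range (2 * L), s j :=
    ⟨(Nat.chineseRemainderOfFinset rr s (range (2 * L)) (fun j _ => (hspos j).ne') hcop : ℕ),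
      (Nat.chineseRemainderOfFinset rr s (range (2 * L)) (fun j _ => (hspos j).ne') hcop).2,
      Nat.chineseRemainderOfFinset_lt_prod rr s (fun j _ => (hspos j).ne') hcop⟩
  obtain ⟨ha0, ha0lt⟩ := ha0
  set M := ∏ j ∈ range (2 * L), s j with hM
  have hMpos : 0 < M := Finset.prod_pos (fun j _ => hspos j)
  have hsM : ∀ j < 2 * L, s j ∣ M := fun j hj => Finset.dvd_prod_of_mem _ (mem_range.mpr hj)
  have hLM : L ∣ M := by
    have := hsM i (by omega)
    rwa [hsi] at this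
  have hLleM : L ≤ M := Nat.le_of_dvd hMpos hLM
  set a := a0 + M * (c + 1) with ha
  have haMod : ∀ t, ∀ j < 2 * L, a + M * t ≡ rr j [MOD s j] := by
    intro t j hj
    have h1 : a + M * t ≡ a0 [MOD s j] := by
      have h2 : a + M * t = a0 + M * (c + 1 + t) := by rw [ha]; ring
      rw [h2]
      have h3 : M * (c + 1 + t) ≡ 0 [MOD s j] :=
        (Nat.modEq_zero_iff_dvd).mpr ((hsM j hj).mul_right _)
      simpa using Nat.ModEq.add_left a0 h3
    exact h1.trans (ha0 j (mem_range.mpr hj))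
  have hform : ∀ t, ∀ j < 2 * L, j ≠ i →
      ∃ v, a + j + M * t = (q j) ^ (k - 1) * (q j * v + 1) := by
    intro t j hj hji
    have h1 := haMod t j hj
    rw [hsj j hji] at h1
    have hrj : rr j = (q j) ^ (k - 1) + (q j) ^ k * j - j := by simp [hrr, hji]
    rw [hrj] at h1
    have hqk : 0 < (q j) ^ k := pow_pos (hqpos j) _
    have h2 : (q j) ^ (k - 1) + (q j) ^ k * j - j + j = (q j) ^ (k - 1) + (q j) ^ k * j := by
      have : j ≤ (q j) ^ k * j := Nat.le_mul_of_pos_left j hqk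
      omega
    have h3 : a + M * t + j ≡ (q j) ^ (k - 1) + (q j) ^ k * j [MOD (q j) ^ k] := by
      have := Nat.ModEq.add_right j h1
      rwa [h2] at this
    have h4 : (q j) ^ (k - 1) + (q j) ^ k * j ≡ (q j) ^ (k - 1) [MOD (q j) ^ k] := by
      have h5 : (q j) ^ k * j ≡ 0 [MOD (q j) ^ k] := (Nat.modEq_zero_iff_dvd).mpr (dvd_mul_right _ _)
      simpa using Nat.ModEq.add_left ((q j) ^ (k - 1)) h5
    have h5 := h3.trans h4
    have hlt : (q j) ^ (k - 1) < (q j) ^ k := Nat.pow_lt_pow_right (hqone j) (by omega)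
    have h6 : (a + M * t + j) % (q j) ^ k = (q j) ^ (k - 1) := by
      have h7 := h5
      unfold Nat.ModEq at h7
      rw [h7, Nat.mod_eq_of_lt hlt]
    refine ⟨(a + M * t + j) / (q j) ^ k, ?_⟩
    have h8 := Nat.div_add_mod (a + M * t + j) ((q j) ^ k)
    rw [h6] at h8
    have h9 : (q j) ^ k = (q j) ^ (k - 1) * q j := by
      rw [← pow_succ]; congr 1; omega
    have h10 : a + j + M * t = a + M * t + j := by ring
    rw [h10, ← h8]
    rw [h8]
    rw [mul_add, mul_one, ← mul_assoc, ← h9, h8]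
  refine ⟨a, M, hMpos, ?_, ?_, ?_, ?_, ?_, ?_⟩
  · -- size of `M`
    have hbound : ∀ j ∈ range (2 * L), s j ≤ 2 ^ ((4 * L ^ 2 + S) * (2 * L * k)) := by
      intro j hj
      have hj' := mem_range.mp hj
      have hSle : L ≤ 2 ^ S := by omega
      by_cases hji : j = i
      · rw [hji, hsi]
        refine hSle.trans (Nat.pow_le_pow_right (by norm_num) ?_)
        have h1 : 1 ≤ 2 * L * k := by
          have : 0 < 2 * L * k := by positivity
          omega
        calc S ≤ 4 * L ^ 2 + S := by omega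
          _ = (4 * L ^ 2 + S) * 1 := by ring
          _ ≤ (4 * L ^ 2 + S) * (2 * L * k) := Nat.mul_le_mul_left _ h1
      · rw [hsj j hji]
        have hqle : q j ≤ 2 ^ ((4 * L ^ 2 + S) * (2 * L)) := by
          have h1 : q j ≤ (2 ^ (4 * L ^ 2 + S)) ^ (range (2 * L)).card := by
            apply Finset.prod_le_pow_card
            intro t ht
            have ht' := mem_range.mp ht
            refine ((hp _).2.2).trans ?_
            rw [← pow_add]
            apply Nat.pow_le_pow_right (by norm_num)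
            have h2 : 2 * L * j + t + 1 ≤ 4 * L ^ 2 := by
              have h3 : 2 * L * (j + 1) ≤ 2 * L * (2 * L) := Nat.mul_le_mul_left _ (by omega)
              nlinarith
            omega
          rw [card_range, ← pow_mul] at h1
          exact h1
        calc (q j) ^ k ≤ (2 ^ ((4 * L ^ 2 + S) * (2 * L))) ^ k := Nat.pow_le_pow_left hqle k
          _ = 2 ^ ((4 * L ^ 2 + S) * (2 * L * k)) := by rw [← pow_mul]; congr 1; ring
    have h1 := Finset.prod_le_pow_card (range (2 * L)) s _ hbound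
    rw [card_range, ← pow_mul] at h1
    refine h1.trans (le_of_eq ?_)
    congr 1
    ring
  · -- `L + c ≤ a`
    have h1 : L * (c + 1) ≤ M * (c + 1) := Nat.mul_le_mul_right _ hLleM
    have h2 : L + c ≤ L * (c + 1) := by nlinarith
    omega
  · have : M * (c + 2) = M * (c + 1) + M := by ring
    omega
  · intro t
    have h := haMod t i (by omega)
    have h2 : rr i = c := by simp [hrr]
    rwa [hsi, h2] at h
  · intro t j hj hji
    obtain ⟨v, hv⟩ := hform t j hj hji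
    rw [hv]
    have hc : Nat.Coprime ((q j) ^ (k - 1)) (q j * v + 1) := by
      apply Nat.Coprime.pow_left
      simp
    rw [Nat.Coprime.card_divisors_mul hc]
    rw [hq]
    simp only
    rw [card_divisors_prod_pow p hprime hinj k (by omega) (2 * L * j) (2 * L)]
    exact dvd_mul_right _ _
  · intro j hjS hj h hha hhM
    have hcop2 : ∀ j' ∈ (range (2 * L)).erase i, Nat.Coprime h (s j') := by
      intro j' hj'
      rw [mem_erase, mem_range] at hj'
      rw [hsj j' hj'.1]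
      apply Nat.Coprime.pow_right
      rw [Nat.coprime_iff_gcd_eq_one]
      by_contra hne
      obtain ⟨r, hr, hrd⟩ := Nat.exists_prime_and_dvd hne
      have h1 := hqprime j' r hr (hrd.trans (Nat.gcd_dvd_right _ _))
      have h2 : r ∣ a + j := (hrd.trans (Nat.gcd_dvd_left _ _)).trans hha
      have h3 : r ∣ a + j' := by
        obtain ⟨v, hv⟩ := hform 0 j' hj'.2 hj'.1
        simp only [mul_zero, add_zero] at hv
        rw [hv]
        apply Dvd.dvd.mul_right
        exact (hrd.trans (Nat.gcd_dvd_right _ _)).trans (dvd_pow_self _ (by omega))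
      have hne' : j ≠ j' := by
        intro heq
        rcases hj with hj | hj
        · exact hj'.1 (heq ▸ hj)
        · omega
      have hj'S : j' < 2 ^ S := by omega
      rcases Nat.lt_or_gt_of_ne hne' with hlt | hlt
      · have h4 : r ∣ j' - j := by
          have := Nat.dvd_sub h3 h2
          have h5 : a + j' - (a + j) = j' - j := by omega
          rwa [h5] at this
        have := Nat.le_of_dvd (by omega) h4
        omega
      · have h4 : r ∣ j - j' := by
          have := Nat.dvd_sub h2 h3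
          have h5 : a + j - (a + j') = j - j' := by omega
          rwa [h5] at this
        have := Nat.le_of_dvd (by omega) h4
        omega
    have h1 : M = s i * ∏ j ∈ (range (2 * L)).erase i, s j := by
      rw [hM, Finset.mul_prod_erase _ _ (mem_range.mpr (by omega))]
    have h2 : Nat.Coprime h (∏ j ∈ (range (2 * L)).erase i, s j) := Nat.Coprime.prod_right hcop2
    rw [h1] at hhM
    have h3 := h2.dvd_of_dvd_mul_right hhM
    rw [hsi] at h3
    exact Nat.le_of_dvd hL h3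

lemma geom_bound (k L J : ℕ) (hk : 2 ≤ k) :
    ∑ j ∈ Ico (2 * L) J, (k : ℝ) ^ L / (k : ℝ) ^ (j + 1) ≤ 1 / 2 ^ L := by
  have hk' : (2 : ℝ) ≤ k := by exact_mod_cast hk
  have h1 : ∀ j ∈ Ico (2 * L) J, (k : ℝ) ^ L / (k : ℝ) ^ (j + 1) ≤
      (1 / 2 ^ L) * ((1 / 2 : ℝ) ^ (j - 2 * L) * (1 / 2)) := by
    intro j hj
    rw [mem_Ico] at hj
    obtain ⟨u, rfl⟩ := Nat.exists_eq_add_of_le hj.1
    have e1 : (k : ℝ) ^ L / (k : ℝ) ^ (2 * L + u + 1) = (1 / (k : ℝ)) ^ (L + u + 1) := by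
      have hk0 : (k : ℝ) ≠ 0 := by positivity
      rw [one_div, inv_pow, ← one_div, div_eq_div_iff (by positivity) (by positivity), one_mul,
        ← pow_add]
      congr 1
      omega
    have e2 : 2 * L + u - 2 * L = u := by omega
    rw [e1, e2]
    have h2 : (1 / (k : ℝ)) ^ (L + u + 1) ≤ (1 / 2 : ℝ) ^ (L + u + 1) := by
      apply pow_le_pow_left₀ (by positivity)
      exact one_div_le_one_div_of_le (by norm_num) hk'
    refine h2.trans (le_of_eq ?_)
    rw [pow_succ, pow_add, one_div_pow (2 : ℝ) L]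
    ring
  refine (Finset.sum_le_sum h1).trans ?_
  rw [← Finset.mul_sum, ← Finset.sum_mul]
  have h3 : ∑ j ∈ Ico (2 * L) J, (1 / 2 : ℝ) ^ (j - 2 * L) ≤ 2 := by
    rw [Finset.sum_Ico_eq_sum_range]
    have : ∀ u, (2 * L + u - 2 * L) = u := by intro u; omega
    simp only [this]
    exact sum_geometric_two_le _
  have h4 : (0 : ℝ) ≤ 1 / 2 ^ L := by positivity
  calc (1 / 2 ^ L) * ((∑ j ∈ Ico (2 * L) J, (1 / 2 : ℝ) ^ (j - 2 * L)) * (1 / 2))
      ≤ (1 / 2 ^ L) * (2 * (1 / 2)) := by gcongr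
    _ = 1 / 2 ^ L := by ring

lemma exists_good (k L c i w S b : ℕ) (hk : 2 ≤ k) (hL : 0 < L) (hi : i < L) (hwL : w ≤ L)
    (hb : b = (4 * L ^ 2 + S) * (4 * L ^ 2 * k) + c + S + 2)
    (hS : L + 2 * b + 4 ≤ 2 ^ S) (hw : 8 * L * (2 + b) < 2 ^ w) :
    ∃ q : ℕ, 0 < q ∧
      (∀ j < 2 * L, j ≠ i → k ^ (2 * L) ∣ (q * L + c + j).divisors.card) ∧
      (q * L + c + i).divisors.card < 2 ^ w ∧
      (∑ j ∈ Ico (2 * L) (2 ^ S),
        ((q * L + c + j).divisors.card : ℝ) * ((k : ℝ) ^ L / (k : ℝ) ^ (j + 1)) < 1 / 2) ∧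
      q * L + c + 2 ^ S ≤ 2 ^ (2 * b + 1) := by
  classical
  have hLb : L ≤ b := by
    rw [hb]
    have h1 : L ≤ 4 * L ^ 2 + S := by nlinarith
    have h2 : 1 ≤ 4 * L ^ 2 * k := by
      have : 0 < 4 * L ^ 2 * k := by positivity
      omega
    have h3 : (4 * L ^ 2 + S) * 1 ≤ (4 * L ^ 2 + S) * (4 * L ^ 2 * k) := Nat.mul_le_mul_left _ h2
    omega
  obtain ⟨a, M, hMpos, hMle, haL, haM, hmod, hdiv, hgcd⟩ :=
    construct k L c i S hk hL hi (by omega)
  set μ := (4 * L ^ 2 + S) * (4 * L ^ 2 * k) with hμ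
  -- size estimates
  have hc1 : c + 2 ≤ 2 ^ (c + 1) := by
    have := Nat.lt_two_pow_self (n := c + 1)
    omega
  have ha_lt : a < 2 ^ (μ + c + 1) := by
    calc a < M * (c + 2) := haM
      _ ≤ 2 ^ μ * 2 ^ (c + 1) := Nat.mul_le_mul hMle hc1
      _ = 2 ^ (μ + c + 1) := by rw [← pow_add]; congr 1
  have hsize : ∀ j < 2 ^ S, a + j + M * 2 ^ b ≤ (2 ^ b) ^ 2 := by
    intro j hj
    have h1 : M * 2 ^ b ≤ 2 ^ μ * 2 ^ b := Nat.mul_le_mul_right _ hMle
    have h2 : 2 ^ (μ + c + 1) ≤ 2 ^ b := Nat.pow_le_pow_right (by norm_num) (by omega)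
    have h3 : 2 ^ S ≤ 2 ^ b := Nat.pow_le_pow_right (by norm_num) (by omega)
    have h4 : 2 ^ μ * 2 ^ 2 ≤ 2 ^ b := by
      rw [← pow_add]
      exact Nat.pow_le_pow_right (by norm_num) (by omega)
    have h5 : 2 ^ μ * 2 ^ 2 * 2 ^ b ≤ 2 ^ b * 2 ^ b := Nat.mul_le_mul_right _ h4
    have h6 : 4 ≤ 2 ^ b := by
      calc 4 = 2 ^ 2 := by norm_num
        _ ≤ 2 ^ b := Nat.pow_le_pow_right (by norm_num) (by omega)
    have h7 : (2 ^ b) ^ 2 = 2 ^ b * 2 ^ b := by ring
    have h8 : 4 * 2 ^ b ≤ 2 ^ b * 2 ^ b := Nat.mul_le_mul_right _ h6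
    have h9 : 2 ^ μ * 2 ^ 2 * 2 ^ b = 4 * (2 ^ μ * 2 ^ b) := by ring
    rw [h7]
    generalize 2 ^ b * 2 ^ b = X at *
    generalize 2 ^ μ * 2 ^ b = Y at *
    generalize M * 2 ^ b = Z at *
    omega
  -- the weighted sum
  set W : ℕ → ℝ := fun t => ((a + i + M * t).divisors.card : ℝ) * (1 / 2 ^ w) +
    ∑ j ∈ Ico (2 * L) (2 ^ S),
      ((a + j + M * t).divisors.card : ℝ) * ((k : ℝ) ^ L / (k : ℝ) ^ (j + 1)) with hW
  have hsum : ∑ t ∈ range (2 ^ b), W t < ∑ t ∈ range (2 ^ b), (1 / 2 : ℝ) := by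
    rw [hW]
    simp only
    rw [Finset.sum_add_distrib, Finset.sum_comm, ← Finset.sum_mul]
    have hA : ∑ t ∈ range (2 ^ b), ((a + i + M * t).divisors.card : ℝ) ≤
        2 ^ b * (2 * L * (2 + b)) :=
      avg_tau (a + i) M L b (by omega) (hgcd i (by omega) (Or.inl rfl)) (hsize i (by omega))
    have hB : ∑ j ∈ Ico (2 * L) (2 ^ S), ∑ t ∈ range (2 ^ b),
        ((a + j + M * t).divisors.card : ℝ) * ((k : ℝ) ^ L / (k : ℝ) ^ (j + 1)) ≤
        ∑ j ∈ Ico (2 * L) (2 ^ S),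
          (2 ^ b * (2 * L * (2 + b))) * ((k : ℝ) ^ L / (k : ℝ) ^ (j + 1)) := by
      apply Finset.sum_le_sum
      intro j hj
      rw [mem_Ico] at hj
      rw [← Finset.sum_mul]
      have := avg_tau (a + j) M L b (by omega) (hgcd j hj.2 (Or.inr hj.1)) (hsize j hj.2)
      have h0 : (0 : ℝ) ≤ (k : ℝ) ^ L / (k : ℝ) ^ (j + 1) := by positivity
      exact mul_le_mul_of_nonneg_right this h0
    rw [← Finset.mul_sum] at hB
    have hC := geom_bound k L (2 ^ S) hk
    have hD : (1 : ℝ) / 2 ^ L ≤ 1 / 2 ^ w := by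
      apply one_div_le_one_div_of_le (by positivity)
      exact pow_le_pow_right₀ (by norm_num) hwL
    have hE : (8 : ℝ) * L * (2 + b) < 2 ^ w := by exact_mod_cast hw
    have hK : (0 : ℝ) ≤ 2 ^ b * (2 * L * (2 + b)) := by positivity
    have h2w : (0 : ℝ) < 2 ^ w := by positivity
    have h2b : (0 : ℝ) < 2 ^ b := by positivity
    rw [Finset.sum_const, card_range, nsmul_eq_mul]
    push_cast
    have hF : (2 ^ b * (2 * L * (2 + b)) : ℝ) * (1 / 2 ^ w) < 2 ^ b * (1 / 4) := by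
      rw [mul_assoc]
      apply mul_lt_mul_of_pos_left _ h2b
      rw [mul_one_div, div_lt_iff₀ h2w]
      linarith
    calc (∑ t ∈ range (2 ^ b), ((a + i + M * t).divisors.card : ℝ)) * (1 / 2 ^ w) +
          ∑ j ∈ Ico (2 * L) (2 ^ S), ∑ t ∈ range (2 ^ b),
            ((a + j + M * t).divisors.card : ℝ) * ((k : ℝ) ^ L / (k : ℝ) ^ (j + 1))
        ≤ (2 ^ b * (2 * L * (2 + b))) * (1 / 2 ^ w) +
          (2 ^ b * (2 * L * (2 + b))) * (1 / 2 ^ w) := by
          have h1 : (∑ t ∈ range (2 ^ b), ((a + i + M * t).divisors.card : ℝ)) * (1 / 2 ^ w) ≤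
              (2 ^ b * (2 * L * (2 + b))) * (1 / 2 ^ w) :=
            mul_le_mul_of_nonneg_right hA (by positivity)
          have h2 : (2 ^ b * (2 * L * (2 + b)) : ℝ) *
              ∑ j ∈ Ico (2 * L) (2 ^ S), (k : ℝ) ^ L / (k : ℝ) ^ (j + 1) ≤
              (2 ^ b * (2 * L * (2 + b))) * (1 / 2 ^ w) :=
            mul_le_mul_of_nonneg_left (hC.trans hD) hK
          linarith
      _ < 2 ^ b * (1 / 2) := by linarith
  obtain ⟨t, ht, hWt⟩ := Finset.exists_lt_of_sum_lt hsum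
  have ht' : t < 2 ^ b := mem_range.mp ht
  -- the solution
  have hnc : c ≤ a + M * t := by
    have := Nat.zero_le (M * t)
    omega
  have hLdvd : L ∣ a + M * t - c := (Nat.modEq_iff_dvd' hnc).mp (hmod t).symm
  obtain ⟨q, hq⟩ := hLdvd
  have hqn : q * L + c = a + M * t := by
    have : a + M * t - c + c = a + M * t := Nat.sub_add_cancel hnc
    rw [hq] at this
    rw [← this]
    ring
  have hqpos : 0 < q := by
    rcases Nat.eq_zero_or_pos q with h0 | h0
    · exfalso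
      rw [h0] at hqn
      have := Nat.zero_le (M * t)
      omega
    · exact h0
  have hnj : ∀ j, q * L + c + j = a + j + M * t := by
    intro j
    rw [hqn]
    ring
  have hnn1 : 0 ≤ ∑ j ∈ Ico (2 * L) (2 ^ S),
      ((a + j + M * t).divisors.card : ℝ) * ((k : ℝ) ^ L / (k : ℝ) ^ (j + 1)) :=
    Finset.sum_nonneg (fun j _ => by positivity)
  have hnn2 : 0 ≤ ((a + i + M * t).divisors.card : ℝ) * (1 / 2 ^ w) := by positivity
  rw [hW] at hWt
  simp only at hWt
  refine ⟨q, hqpos, ?_, ?_, ?_, ?_⟩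
  · intro j hj hji
    rw [hnj]
    exact hdiv t j hj hji
  · rw [hnj]
    have h1 : ((a + i + M * t).divisors.card : ℝ) * (1 / 2 ^ w) < 1 := by linarith
    rw [mul_one_div, div_lt_one (by positivity)] at h1
    exact_mod_cast h1
  · simp only [hnj]
    linarith
  · rw [hnj]
    have h1 : M * t ≤ 2 ^ μ * 2 ^ b := Nat.mul_le_mul hMle ht'.le
    have h2 : 2 ^ (μ + c + 1) ≤ 2 ^ b := Nat.pow_le_pow_right (by norm_num) (by omega)
    have h3 : 2 ^ S ≤ 2 ^ b := Nat.pow_le_pow_right (by norm_num) (by omega)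
    have h4 : 2 ^ μ * 2 ^ 2 ≤ 2 ^ b := by
      rw [← pow_add]
      exact Nat.pow_le_pow_right (by norm_num) (by omega)
    have h5 : 2 ^ μ * 2 ^ 2 * 2 ^ b ≤ 2 ^ b * 2 ^ b := Nat.mul_le_mul_right _ h4
    have h6 : 4 ≤ 2 ^ b := by
      calc 4 = 2 ^ 2 := by norm_num
        _ ≤ 2 ^ b := Nat.pow_le_pow_right (by norm_num) (by omega)
    have h7 : 2 ^ (2 * b + 1) = 2 * (2 ^ b * 2 ^ b) := by
      rw [pow_succ, two_mul, pow_add]; ring
    rw [h7]
    have h8 : 4 * 2 ^ b ≤ 2 ^ b * 2 ^ b := Nat.mul_le_mul_right _ h6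
    have h9 : 2 ^ μ * 2 ^ 2 * 2 ^ b = 4 * (2 ^ μ * 2 ^ b) := by ring
    generalize 2 ^ b * 2 ^ b = X at *
    generalize 2 ^ μ * 2 ^ b = Y at *
    generalize M * t = Z at *
    omega

lemma summable_tau (k : ℕ) (hk : 2 ≤ k) :
    Summable (fun n : ℕ => (n.divisors.card : ℝ) / (k : ℝ) ^ n) := by
  have hk' : (2 : ℝ) ≤ k := by exact_mod_cast hk
  have h1 : Summable (fun n : ℕ => (n : ℝ) ^ 1 * (1 / (k : ℝ)) ^ n) := by
    apply summable_pow_mul_geometric_of_norm_lt_one
    rw [Real.norm_of_nonneg (by positivity), div_lt_one (by positivity)]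
    linarith
  apply Summable.of_nonneg_of_le (fun n => by positivity) _ h1
  intro n
  rw [pow_one, one_div_pow, mul_one_div]
  gcongr
  exact Nat.card_divisors_le_self n

lemma lambertValue_eq (k : ℕ) (hk : 2 ≤ k) :
    lambertValue k = ∑' n : ℕ, (n.divisors.card : ℝ) / (k : ℝ) ^ n := by
  have hk' : (2 : ℝ) ≤ k := by exact_mod_cast hk
  have hr : ‖(1 / (k : ℝ))‖ < 1 := by
    rw [Real.norm_of_nonneg (by positivity), div_lt_one (by positivity)]
    linarith
  have h1 := tsum_pow_div_one_sub_eq_tsum_sigma hr 0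
  rw [(summable_tau k hk).tsum_eq_zero_add]
  simp only [Nat.divisors_zero, card_empty, Nat.cast_zero, zero_div, zero_add]
  rw [tsum_pnat_eq_tsum_succ (f := fun n : ℕ => (n : ℝ) ^ 0 * (1 / (k : ℝ)) ^ n /
      (1 - (1 / (k : ℝ)) ^ n)),
    tsum_pnat_eq_tsum_succ (f := fun n : ℕ => ((ArithmeticFunction.sigma 0 n : ℕ) : ℝ) *
      (1 / (k : ℝ)) ^ n)] at h1
  unfold lambertValue
  convert h1 using 1
  · apply tsum_congr
    intro n
    have h2 : (1 : ℝ) < (k : ℝ) ^ (n + 1) := one_lt_pow₀ (by linarith) (by omega)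
    have h3 : (k : ℝ) ^ (n + 1) - 1 ≠ 0 := by linarith
    have h4 : (1 : ℝ) - 1 / (k : ℝ) ^ (n + 1) = ((k : ℝ) ^ (n + 1) - 1) / (k : ℝ) ^ (n + 1) := by
      rw [sub_div, div_self (by positivity)]
    rw [pow_zero, one_mul, one_div_pow, h4]
    rw [div_div_div_cancel_right₀ (by positivity)]
  · apply tsum_congr
    intro n
    rw [ArithmeticFunction.sigma_zero_apply, one_div_pow, mul_one_div]

lemma tail_aux : ∑' u : ℕ, ((u : ℝ) + 1) * (1 / 2 : ℝ) ^ (u + 1) = 2 ∧
    Summable (fun u : ℕ => ((u : ℝ) + 1) * (1 / 2 : ℝ) ^ (u + 1)) := by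
  have h0 : ‖(1 / 2 : ℝ)‖ < 1 := by
    rw [Real.norm_of_nonneg (by norm_num)]; norm_num
  have h1 := hasSum_coe_mul_geometric_of_norm_lt_one h0
  have h2 : (1 / 2 : ℝ) / (1 - 1 / 2) ^ 2 = 2 := by norm_num
  rw [h2] at h1
  have h3 := (hasSum_nat_add_iff' 1).mpr h1
  simp only [range_one, sum_singleton, Nat.cast_zero, zero_mul, sub_zero, Nat.cast_add,
    Nat.cast_one] at h3
  exact ⟨h3.tsum_eq, h3.summable⟩

/-- tail bound -/
lemma tail_bound (k L n J X : ℕ) (hk : 2 ≤ k) (hX : n + J ≤ X) (hX1 : 1 ≤ X) (hJ : L ≤ J) :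
    ∑' u : ℕ, ((n + (u + J)).divisors.card : ℝ) * ((k : ℝ) ^ L / (k : ℝ) ^ (u + J + 1)) ≤
      2 * X / 2 ^ (J - L) := by
  have hk' : (2 : ℝ) ≤ k := by exact_mod_cast hk
  obtain ⟨h1, h2⟩ := tail_aux
  have h3 : ∀ u : ℕ, ((n + (u + J)).divisors.card : ℝ) * ((k : ℝ) ^ L / (k : ℝ) ^ (u + J + 1)) ≤
      (X / 2 ^ (J - L)) * (((u : ℝ) + 1) * (1 / 2 : ℝ) ^ (u + 1)) := by
    intro u
    have e1 : (k : ℝ) ^ L / (k : ℝ) ^ (u + J + 1) = (1 / (k : ℝ)) ^ ((J - L) + (u + 1)) := by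
      have hk0 : (k : ℝ) ≠ 0 := by positivity
      rw [one_div, inv_pow, ← one_div, div_eq_div_iff (by positivity) (by positivity), one_mul,
        ← pow_add]
      congr 1
      omega
    have h4 : (1 / (k : ℝ)) ^ ((J - L) + (u + 1)) ≤ (1 / 2 : ℝ) ^ ((J - L) + (u + 1)) := by
      apply pow_le_pow_left₀ (by positivity)
      exact one_div_le_one_div_of_le (by norm_num) hk'
    have h5 : ((n + (u + J)).divisors.card : ℝ) ≤ X * (u + 1) := by
      have h6 : (n + (u + J)).divisors.card ≤ n + (u + J) := Nat.card_divisors_le_self _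
      have h7 : n + (u + J) ≤ X * (u + 1) := by nlinarith
      exact_mod_cast h6.trans h7
    rw [e1]
    calc ((n + (u + J)).divisors.card : ℝ) * (1 / (k : ℝ)) ^ ((J - L) + (u + 1))
        ≤ (X * (u + 1)) * (1 / 2 : ℝ) ^ ((J - L) + (u + 1)) := by gcongr
      _ = (X / 2 ^ (J - L)) * (((u : ℝ) + 1) * (1 / 2 : ℝ) ^ (u + 1)) := by
        rw [pow_add, one_div_pow (2 : ℝ) (J - L)]
        ring
  have h8 : Summable (fun u : ℕ => (X / 2 ^ (J - L) : ℝ) *
      (((u : ℝ) + 1) * (1 / 2 : ℝ) ^ (u + 1))) := h2.mul_left _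
  have h9 : Summable (fun u : ℕ => ((n + (u + J)).divisors.card : ℝ) *
      ((k : ℝ) ^ L / (k : ℝ) ^ (u + J + 1))) :=
    Summable.of_nonneg_of_le (fun u => by positivity) h3 h8
  calc _ ≤ ∑' u : ℕ, (X / 2 ^ (J - L) : ℝ) * (((u : ℝ) + 1) * (1 / 2 : ℝ) ^ (u + 1)) :=
        h9.tsum_le_tsum h3 h8
    _ = 2 * X / 2 ^ (J - L) := by
        rw [tsum_mul_left, h1]
        ring

/-- decomposition of `A_k k^n` -/
lemma decomp (k L i n J b : ℕ) (hk : 2 ≤ k) (hi : i < L) (hJL : 2 * L ≤ J)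
    (hdiv : ∀ j < 2 * L, j ≠ i → k ^ (2 * L) ∣ (n + j).divisors.card)
    (hsum : ∑ j ∈ Ico (2 * L) J,
        ((n + j).divisors.card : ℝ) * ((k : ℝ) ^ L / (k : ℝ) ^ (j + 1)) < 1 / 2)
    (hX : n + J ≤ 2 ^ (2 * b + 1)) (hJb : L + 2 * b + 4 ≤ J) :
    ∃ (Z : ℕ) (R : ℝ), 0 ≤ R ∧ R * (k : ℝ) ^ L < 1 ∧
      lambertValue k * (k : ℝ) ^ n = k * Z + ((n + i).divisors.card : ℝ) / (k : ℝ) ^ i + k * R := by
  classical
  have hk' : (2 : ℝ) ≤ k := by exact_mod_cast hk
  have hk0 : (k : ℝ) ≠ 0 := by positivity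
  have hs := summable_tau k hk
  have hs2 : Summable (fun j : ℕ => ((n + j).divisors.card : ℝ) / (k : ℝ) ^ (n + j)) := by
    have := (summable_nat_add_iff n).mpr hs
    simpa only [add_comm] using this
  -- first split
  have e1 : lambertValue k = ∑ t ∈ range n, (t.divisors.card : ℝ) / (k : ℝ) ^ t +
      ∑' j : ℕ, ((n + j).divisors.card : ℝ) / (k : ℝ) ^ (n + j) := by
    rw [lambertValue_eq k hk, ← hs.sum_add_tsum_nat_add n]
    congr 1
    apply tsum_congr
    intro j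
    rw [add_comm]
  have e2 : (∑' j : ℕ, ((n + j).divisors.card : ℝ) / (k : ℝ) ^ (n + j)) * (k : ℝ) ^ n =
      ∑' j : ℕ, ((n + j).divisors.card : ℝ) / (k : ℝ) ^ j := by
    rw [← tsum_mul_right]
    apply tsum_congr
    intro j
    rw [pow_add]
    field_simp
  have hs3 : Summable (fun j : ℕ => ((n + j).divisors.card : ℝ) / (k : ℝ) ^ j) := by
    have := hs2.mul_right ((k : ℝ) ^ n)
    refine this.congr ?_
    intro j
    rw [pow_add]
    field_simp
  have e3 := hs3.sum_add_tsum_nat_add (2 * L)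
  -- integer parts
  have e4 : (∑ t ∈ range n, (t.divisors.card : ℝ) / (k : ℝ) ^ t) * (k : ℝ) ^ n =
      k * ((∑ t ∈ range n, t.divisors.card * k ^ (n - 1 - t) : ℕ) : ℝ) := by
    push_cast
    rw [Finset.sum_mul, Finset.mul_sum]
    apply Finset.sum_congr rfl
    intro t ht
    have ht' := mem_range.mp ht
    have : (k : ℝ) ^ n = k ^ t * (k * k ^ (n - 1 - t)) := by
      rw [← pow_succ', ← pow_add]
      congr 1
      omega
    rw [this]
    field_simp
  have e5 : ∑ j ∈ range (2 * L), ((n + j).divisors.card : ℝ) / (k : ℝ) ^ j =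
      ((n + i).divisors.card : ℝ) / (k : ℝ) ^ i +
      k * ((∑ j ∈ (range (2 * L)).erase i, (n + j).divisors.card / k ^ (j + 1) : ℕ) : ℝ) := by
    rw [← Finset.add_sum_erase _ _ (mem_range.mpr (show i < 2 * L by omega))]
    congr 1
    push_cast
    rw [Finset.mul_sum]
    apply Finset.sum_congr rfl
    intro j hj
    rw [mem_erase, mem_range] at hj
    have hd : k ^ (j + 1) ∣ (n + j).divisors.card :=
      (pow_dvd_pow k (by omega)).trans (hdiv j hj.2 hj.1)
    rw [Nat.cast_div hd (by positivity)]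
    push_cast
    rw [pow_succ]
    field_simp
  -- remainder
  set R : ℝ := (∑' u : ℕ, ((n + (u + 2 * L)).divisors.card : ℝ) / (k : ℝ) ^ (u + 2 * L)) / k with hR
  have hkR : k * R = ∑' u : ℕ, ((n + (u + 2 * L)).divisors.card : ℝ) / (k : ℝ) ^ (u + 2 * L) := by
    rw [hR]; field_simp
  refine ⟨(∑ t ∈ range n, t.divisors.card * k ^ (n - 1 - t)) +
    ∑ j ∈ (range (2 * L)).erase i, (n + j).divisors.card / k ^ (j + 1), R, ?_, ?_, ?_⟩
  · rw [hR]
    apply div_nonneg _ (by positivity)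
    exact tsum_nonneg (fun u => by positivity)
  · have hs4 : Summable (fun j : ℕ => ((n + j).divisors.card : ℝ) *
        ((k : ℝ) ^ L / (k : ℝ) ^ (j + 1))) := by
      have := hs3.mul_right ((k : ℝ) ^ L / k)
      refine this.congr ?_
      intro j
      rw [pow_succ]
      field_simp
    have e6 : R * (k : ℝ) ^ L = ∑' u : ℕ, ((n + (u + 2 * L)).divisors.card : ℝ) *
        ((k : ℝ) ^ L / (k : ℝ) ^ (u + 2 * L + 1)) := by
      rw [hR, div_mul_eq_mul_div, ← tsum_mul_right, ← tsum_div_const]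
      apply tsum_congr
      intro u
      rw [pow_succ]
      field_simp
    have hs5 := (summable_nat_add_iff (f := fun j : ℕ => ((n + j).divisors.card : ℝ) *
        ((k : ℝ) ^ L / (k : ℝ) ^ (j + 1))) (2 * L)).mpr hs4
    rw [e6, ← hs5.sum_add_tsum_nat_add (J - 2 * L)]
    have e7 : ∑ u ∈ range (J - 2 * L), ((n + (u + 2 * L)).divisors.card : ℝ) *
        ((k : ℝ) ^ L / (k : ℝ) ^ (u + 2 * L + 1)) = ∑ j ∈ Ico (2 * L) J,
        ((n + j).divisors.card : ℝ) * ((k : ℝ) ^ L / (k : ℝ) ^ (j + 1)) := by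
      rw [Finset.sum_Ico_eq_sum_range]
      apply Finset.sum_congr rfl
      intro u _
      rw [add_comm u (2 * L)]
    have e8 : ∀ u : ℕ, u + (J - 2 * L) + 2 * L = u + J := by intro u; omega
    rw [e7]
    simp only [e8]
    have h10 := tail_bound k L n J (2 ^ (2 * b + 1)) hk hX Nat.one_le_two_pow (by omega)
    have h11 : (2 * ((2 ^ (2 * b + 1) : ℕ) : ℝ)) / 2 ^ (J - L) ≤ 1 / 2 := by
      rw [div_le_iff₀ (by positivity)]
      push_cast
      have h12 : (2 : ℝ) ^ (2 * b + 1) * 4 ≤ 2 ^ (J - L) := by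
        calc (2 : ℝ) ^ (2 * b + 1) * 4 = 2 ^ (2 * b + 3) := by
              rw [show 2 * b + 3 = 2 * b + 1 + 2 by ring, pow_add (2 : ℝ) (2 * b + 1) 2]; norm_num
          _ ≤ 2 ^ (J - L) := pow_le_pow_right₀ (by norm_num) (by omega)
      linarith
    linarith
  · rw [e1, add_mul, e2, e4, ← e3, e5, ← hkR]
    push_cast
    ring

lemma floor_natCast_add_eq_aux (m : ℕ) (e : ℝ) (h0 : 0 ≤ e) (h1 : e < 1) :
    ⌊(m : ℝ) + e⌋₊ = m := by
  rw [Nat.floor_eq_iff (by positivity)]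
  constructor <;> linarith

/-- digits from the decomposition -/
lemma digits_of_decomp (k L i n T Z : ℕ) (x R : ℝ) (hk : 2 ≤ k) (hi : i < L) (hR0 : 0 ≤ R)
    (hR1 : R * (k : ℝ) ^ L < 1) (hx : x * (k : ℝ) ^ n = k * Z + (T : ℝ) / (k : ℝ) ^ i + k * R)
    (r : ℕ) (hr : r < L) :
    ⌊x * (k : ℝ) ^ (n + r)⌋₊ % k = if r ≤ i then (T / k ^ (i - r)) % k else 0 := by
  have hk' : (2 : ℝ) ≤ k := by exact_mod_cast hk
  have hk1 : (1 : ℝ) ≤ k := by linarith
  have hk0 : (k : ℝ) ≠ 0 := by positivity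
  have hsmall : ∀ m, m ≤ L → R * (k : ℝ) ^ m < 1 := by
    intro m hm
    refine lt_of_le_of_lt ?_ hR1
    exact mul_le_mul_of_nonneg_left (pow_le_pow_right₀ hk1 hm) hR0
  have hxr : x * (k : ℝ) ^ (n + r) = (k * Z + (T : ℝ) / (k : ℝ) ^ i + k * R) * k ^ r := by
    rw [pow_add, ← mul_assoc, hx]
  split_ifs with hri
  · -- r ≤ i
    have h1 : x * (k : ℝ) ^ (n + r) =
        (((k ^ (i + 1) * Z + T : ℕ) : ℝ) + R * (k : ℝ) ^ (i + 1)) / ((k ^ (i - r) : ℕ) : ℝ) := by
      rw [hxr]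
      push_cast
      have h2 : (k : ℝ) ^ (i + 1) = k ^ (i - r) * (k * k ^ r) := by
        rw [← pow_succ', ← pow_add]
        congr 1
        omega
      have h3 : (k : ℝ) ^ i = k ^ (i - r) * k ^ r := by
        rw [← pow_add]
        congr 1
        omega
      rw [h2, h3]
      field_simp
    rw [h1, Nat.floor_div_natCast, floor_natCast_add_eq_aux _ _ (by positivity) (hsmall _ (by omega))]
    have h4 : (k ^ (i + 1) * Z + T) / k ^ (i - r) = k ^ (r + 1) * Z + T / k ^ (i - r) := by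
      have h5 : k ^ (i + 1) * Z = k ^ (i - r) * (k ^ (r + 1) * Z) := by
        rw [← mul_assoc, ← pow_add]
        congr 2
        omega
      rw [h5, Nat.mul_add_div (by positivity)]
    rw [h4, pow_succ]
    have h6 : k ^ r * k * Z + T / k ^ (i - r) = T / k ^ (i - r) + k * (k ^ r * Z) := by ring
    rw [h6, Nat.add_mul_mod_self_left]
  · push Not at hri
    have h1 : x * (k : ℝ) ^ (n + r) =
        ((k * (k ^ r * Z + T * k ^ (r - i - 1)) : ℕ) : ℝ) + R * (k : ℝ) ^ (r + 1) := by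
      rw [hxr]
      push_cast
      have h2 : (k : ℝ) ^ r = k ^ i * (k * k ^ (r - i - 1)) := by
        rw [← pow_succ', ← pow_add]
        congr 1
        omega
      rw [pow_succ, h2]
      field_simp
    rw [h1, floor_natCast_add_eq_aux _ _ (by positivity) (hsmall _ (by omega))]
    exact Nat.mul_mod_right _ _

/-- blocks with a prescribed window of nonzero digits -/
lemma exists_block (k L c i w S b : ℕ) (hk : 2 ≤ k) (hL : 0 < L) (hi : i < L) (hwi : w ≤ i)
    (hb : b = (4 * L ^ 2 + S) * (4 * L ^ 2 * k) + c + S + 2)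
    (hS : L + 2 * b + 4 ≤ 2 ^ S) (hw : 8 * L * (2 + b) < 2 ^ w) :
    ∃ q : ℕ, 0 < q ∧
      (∀ r < L, (r + w ≤ i ∨ i < r) → ⌊lambertValue k * (k : ℝ) ^ (q * L + r + c)⌋₊ % k = 0) ∧
      (∃ r < L, i < r + w ∧ r ≤ i ∧ ⌊lambertValue k * (k : ℝ) ^ (q * L + r + c)⌋₊ % k ≠ 0) := by
  obtain ⟨q, hq, hdiv, hT, hsum, hX⟩ := exists_good k L c i w S b hk hL hi (by omega) hb hS hw
  have hLb : L ≤ b := by
    rw [hb]
    have h1 : L ≤ 4 * L ^ 2 + S := by nlinarith
    have h2 : 1 ≤ 4 * L ^ 2 * k := by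
      have : 0 < 4 * L ^ 2 * k := by positivity
      omega
    have h3 : (4 * L ^ 2 + S) * 1 ≤ (4 * L ^ 2 + S) * (4 * L ^ 2 * k) := Nat.mul_le_mul_left _ h2
    omega
  have hn : 1 ≤ q * L + c := by
    have : 0 < q * L := Nat.mul_pos hq hL
    omega
  obtain ⟨Z, R, hR0, hR1, hx⟩ := decomp k L i (q * L + c) (2 ^ S) b hk hi (by omega) hdiv hsum
    hX hS
  have hdig := digits_of_decomp k L i (q * L + c) ((q * L + c + i).divisors.card) Z
    (lambertValue k) R hk hi hR0 hR1 hx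
  set T := (q * L + c + i).divisors.card with hTdef
  have hTpos : 0 < T := by
    rw [hTdef, card_pos]
    exact Nat.nonempty_divisors.mpr (by omega)
  have hTk : T < k ^ w := hT.trans_le (Nat.pow_le_pow_left hk w)
  have hcomm : ∀ r, q * L + r + c = q * L + c + r := by intro r; ring
  refine ⟨q, hq, ?_, ?_⟩
  · intro r hr hri
    rw [hcomm, hdig r hr]
    split_ifs with h
    · have h1 : w ≤ i - r := by omega
      have h2 : T < k ^ (i - r) := hTk.trans_le (Nat.pow_le_pow_right (by omega) h1)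
      rw [Nat.div_eq_of_lt h2, Nat.zero_mod]
    · rfl
  · have hlog : Nat.log k T < w := Nat.log_lt_of_lt_pow hTpos.ne' hTk
    refine ⟨i - Nat.log k T, by omega, by omega, by omega, ?_⟩
    rw [hcomm, hdig _ (by omega), if_pos (by omega)]
    have h1 : i - (i - Nat.log k T) = Nat.log k T := by omega
    rw [h1]
    have h2 : 0 < T / k ^ Nat.log k T := Nat.div_pos (Nat.pow_log_le_self k hTpos.ne') (by positivity)
    have h3 : T / k ^ Nat.log k T < k := by
      rw [Nat.div_lt_iff_lt_mul (by positivity)]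
      have := Nat.lt_pow_succ_log_self (by omega : 1 < k) T
      rwa [Nat.pow_succ, mul_comm] at this
    rw [Nat.mod_eq_of_lt h3]
    omega

/-- base `m` digits of `q m^e + r` -/
lemma digits_block (m : ℕ) (hm : 2 ≤ m) (e : ℕ) : ∀ r < m ^ e, ∃ l : List ℕ, ∀ q > 0,
    Nat.digits m (q * m ^ e + r) = l ++ Nat.digits m q := by
  induction e with
  | zero =>
    intro r hr
    refine ⟨[], ?_⟩
    intro q _
    have : r = 0 := by simpa using hr
    simp [this]
  | succ e ih =>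
    intro r hr
    have hr' : r / m < m ^ e := by
      rw [Nat.div_lt_iff_lt_mul (by omega)]
      rwa [pow_succ] at hr
    obtain ⟨l, hl⟩ := ih (r / m) hr'
    refine ⟨(r % m) :: l, ?_⟩
    intro q hq
    have hpos : 0 < q * m ^ (e + 1) + r := by positivity
    rw [Nat.digits_def' (by omega) hpos]
    have h1 : q * m ^ (e + 1) + r = r + m * (q * m ^ e) := by rw [pow_succ]; ring
    rw [h1, Nat.add_mul_mod_self_left, Nat.add_mul_div_left _ _ (by omega : 0 < m), add_comm (r / m),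
      hl q hq]
    rfl

lemma automatic_blocks (m k : ℕ) (hm : 2 ≤ m) (hk : 0 < k) (a : ℕ → ℕ) (ha : ∀ n, a n < k)
    (h : IsAutomatic m a) :
    ∃ (F : Type) (_ : Fintype F) (φ : ℕ → F), ∀ e q q' : ℕ, 0 < q → 0 < q' → φ q = φ q' →
      ∀ r < m ^ e, a (q * m ^ e + r) = a (q' * m ^ e + r) := by
  classical
  obtain ⟨Q, hQ, δ, q₀, out, h | h⟩ := h
  · refine ⟨Q, hQ, fun q => (Nat.digits m q).reverse.foldl δ q₀, ?_⟩
    intro e q q' hq hq' hφ r hr
    obtain ⟨l, hl⟩ := digits_block m hm e r hr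
    rw [h, h, hl q hq, hl q' hq', List.reverse_append, List.reverse_append, List.foldl_append,
      List.foldl_append]
    simp only at hφ
    rw [hφ]
  · refine ⟨Q → Fin k, inferInstance,
      fun q s => ⟨out ((Nat.digits m q).foldl δ s) % k, Nat.mod_lt _ hk⟩, ?_⟩
    intro e q q' hq hq' hφ r hr
    obtain ⟨l, hl⟩ := digits_block m hm e r hr
    have h1 := congrFun hφ (l.foldl δ q₀)
    simp only [Fin.mk.injEq] at h1
    rw [← List.foldl_append, ← List.foldl_append, ← hl q hq, ← hl q' hq', ← h, ← h,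
      Nat.mod_eq_of_lt (ha _), Nat.mod_eq_of_lt (ha _)] at h1
    exact h1

lemma poly_lt_two_pow (K : ℕ) : ∃ w0 : ℕ, ∀ w ≥ w0, K * (w + 1) ^ 7 < 2 ^ w := by
  have h1 := tendsto_pow_const_div_const_pow_of_one_lt 7 (r := (2 : ℝ)) (by norm_num)
  have hpos : (0 : ℝ) < 1 / (2 * K + 2) := by positivity
  have h2 := h1.eventually (gt_mem_nhds hpos)
  obtain ⟨w0, hw0⟩ := Filter.eventually_atTop.mp h2
  refine ⟨w0, fun w hw => ?_⟩
  have h3 := hw0 (w + 1) (by omega)
  rw [div_lt_div_iff₀ (by positivity) (by positivity)] at h3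
  push_cast at h3
  rw [pow_succ (2 : ℝ) w] at h3
  have h4 : (0 : ℝ) < ((w : ℝ) + 1) ^ 7 := by positivity
  have h5 : (K : ℝ) * ((w : ℝ) + 1) ^ 7 < 2 ^ w := by nlinarith
  exact_mod_cast h5

lemma quad_le_two_pow : ∀ S : ℕ, 10 ≤ S → 3 * S + 2 * S ^ 2 ≤ 2 ^ S := by
  intro S hS
  induction S, hS using Nat.le_induction with
  | base => norm_num
  | succ n hn ih =>
    rw [pow_succ 2 n]
    nlinarith

/-- choice of parameters -/
lemma exists_params (k c m N : ℕ) (hm : 2 ≤ m) :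
    ∃ e w S b : ℕ, N * w < m ^ e ∧
      b = (4 * (m ^ e) ^ 2 + S) * (4 * (m ^ e) ^ 2 * k) + c + S + 2 ∧
      m ^ e + 2 * b + 4 ≤ 2 ^ S ∧ 8 * m ^ e * (2 + b) < 2 ^ w := by
  set K1 := (16 * k + c + 2) + (4 * k + 1) * (20 * k + c + 14) with hK1
  obtain ⟨w0, hw0⟩ := poly_lt_two_pow (8 * (2 + K1) * (N + 1) ^ 7)
  set e := w0 * (N + 1) with he
  set L := m ^ e with hL
  have hLpos : 0 < L := by positivity
  have hLe : w0 * (N + 1) < L := by
    calc w0 * (N + 1) = e := rfl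
      _ < 2 ^ e := Nat.lt_two_pow_self
      _ ≤ m ^ e := Nat.pow_le_pow_left hm e
  set w := L / (N + 1) with hw
  have hw1 : w0 ≤ w := by
    rw [hw, Nat.le_div_iff_mul_le (by omega)]
    exact hLe.le
  have hw2 : N * w < L := by
    have h1 : (N + 1) * w ≤ L := Nat.mul_div_le L (N + 1)
    rcases Nat.eq_zero_or_pos w with h0 | h0
    · rw [h0]; simpa using hLpos
    · nlinarith
  have hw3 : L ≤ (w + 1) * (N + 1) := by
    have := Nat.lt_mul_div_succ L (show 0 < N + 1 by omega)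
    rw [← hw] at this
    nlinarith
  have hA : 16 * L ^ 4 * k + c + 2 ≤ (16 * k + c + 2) * L ^ 4 := by
    have h1 : 1 ≤ L ^ 4 := Nat.one_le_pow _ _ hLpos
    nlinarith
  have hB : 4 * L ^ 2 * k + 1 ≤ (4 * k + 1) * L ^ 2 := by
    have h1 : 1 ≤ L ^ 2 := Nat.one_le_pow _ _ hLpos
    nlinarith
  set A := 16 * L ^ 4 * k + c + 2 with hAdef
  set B := 4 * L ^ 2 * k + 1 with hBdef
  set S := L + A + B + 10 with hSdef
  have hb : (4 * L ^ 2 + S) * (4 * L ^ 2 * k) + c + S + 2 = A + B * S := by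
    rw [hAdef, hBdef]; ring
  refine ⟨e, w, S, _, hw2, rfl, ?_, ?_⟩
  · rw [← hL, hb]
    refine le_trans ?_ (quad_le_two_pow S (by omega))
    have h1 : B * S ≤ S * S := Nat.mul_le_mul_right _ (by omega)
    have h2 : S ^ 2 = S * S := by ring
    rw [h2]
    omega
  · rw [← hL, hb]
    have hS : S ≤ (20 * k + c + 14) * L ^ 4 := by
      have h1 : L ≤ L ^ 4 := Nat.le_self_pow (by norm_num) L
      have h2 : 1 ≤ L ^ 4 := Nat.one_le_pow _ _ hLpos
      have h3 : L ^ 2 ≤ L ^ 4 := Nat.pow_le_pow_right hLpos (by norm_num)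
      have h4 : (4 * k + 1) * L ^ 2 ≤ (4 * k + 1) * L ^ 4 := Nat.mul_le_mul_left _ h3
      calc S = L + A + B + 10 := rfl
        _ ≤ L ^ 4 + (16 * k + c + 2) * L ^ 4 + (4 * k + 1) * L ^ 4 + 10 * L ^ 4 := by
          have := hB.trans h4
          omega
        _ = (20 * k + c + 14) * L ^ 4 := by ring
    have hbb : A + B * S ≤ K1 * L ^ 6 := by
      have h1 : L ^ 4 ≤ L ^ 6 := Nat.pow_le_pow_right hLpos (by norm_num)
      calc A + B * S ≤ (16 * k + c + 2) * L ^ 6 + ((4 * k + 1) * L ^ 2) * ((20 * k + c + 14) * L ^ 4) :=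
            Nat.add_le_add (hA.trans (Nat.mul_le_mul_left _ h1)) (Nat.mul_le_mul hB hS)
        _ = K1 * L ^ 6 := by rw [hK1]; ring
    have h6 : 1 ≤ L ^ 6 := Nat.one_le_pow _ _ hLpos
    calc 8 * L * (2 + (A + B * S)) ≤ 8 * L * (2 * L ^ 6 + K1 * L ^ 6) :=
          Nat.mul_le_mul_left _ (by omega)
      _ = 8 * (2 + K1) * L ^ 7 := by ring
      _ ≤ 8 * (2 + K1) * ((w + 1) * (N + 1)) ^ 7 :=
          Nat.mul_le_mul_left _ (Nat.pow_le_pow_left hw3 7)
      _ = 8 * (2 + K1) * (N + 1) ^ 7 * (w + 1) ^ 7 := by rw [mul_pow]; ring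
      _ < 2 ^ w := hw0 w hw1

/-- For all integers `k, m ≥ 2`, the base-`k` digit sequence of `A_k` is not `m`-automatic, and
neither is any sequence obtained from it by deleting initial digits. Here
`⌊A_k * k ^ j⌋ % k` is, for `j ≥ 1`, the `j`-th base-`k` digit of `A_k` after the radix point. -/
theorem result (k m c : ℕ) (hk : 2 ≤ k) (hm : 2 ≤ m) :
    ¬ IsAutomatic m (fun n => ⌊lambertValue k * (k : ℝ) ^ (n + c)⌋₊ % k) := by
  classical
  intro hauto
  obtain ⟨F, hF, φ, hφ⟩ := automatic_blocks m k hm (by omega) _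
    (fun n => Nat.mod_lt _ (by omega)) hauto
  obtain ⟨e, w, S, b, hw1, hb, hS, hw2⟩ := exists_params k c m (Fintype.card F + 1) hm
  set L := m ^ e with hL
  have hLpos : 0 < L := by positivity
  have key : ∀ s : Fin (Fintype.card F + 1), ∃ q : ℕ, 0 < q ∧
      (∀ r < L, (r + w ≤ (s + 1) * w ∨ (s + 1) * w < r) →
        ⌊lambertValue k * (k : ℝ) ^ (q * L + r + c)⌋₊ % k = 0) ∧
      (∃ r < L, (s + 1) * w < r + w ∧ r ≤ (s + 1) * w ∧
        ⌊lambertValue k * (k : ℝ) ^ (q * L + r + c)⌋₊ % k ≠ 0) := by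
    intro s
    have h1 : (s + 1) * w ≤ (Fintype.card F + 1) * w := Nat.mul_le_mul_right _ (by omega)
    have h2 : w ≤ (s + 1) * w := Nat.le_mul_of_pos_left _ (by omega)
    exact exists_block k L c ((s + 1) * w) w S b hk hLpos (by omega) h2 hb hS hw2
  choose q hqpos hq0 hq1 using key
  obtain ⟨s, s', hne, hss⟩ := Fintype.exists_ne_map_eq_of_card_lt (fun s => φ (q s))
    (by rw [Fintype.card_fin]; omega)
  wlog hlt : s < s' generalizing s s'
  · exact this s' s hne.symm hss.symm (lt_of_le_of_ne (not_lt.mp hlt) hne.symm)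
  obtain ⟨r, hr, hr1, hr2, hr3⟩ := hq1 s
  have h1 := hφ e (q s) (q s') (hqpos s) (hqpos s') hss r hr
  rw [h1] at hr3
  apply hr3
  apply hq0 s' r hr
  left
  have h2 : (s : ℕ) + 1 ≤ s' := hlt
  have h3 : ((s : ℕ) + 1) * w ≤ s' * w := Nat.mul_le_mul_right _ h2
  have h4 : ((s' : ℕ) + 1) * w = s' * w + w := by ring
  omega

end Pool.Agent.Results.MP_29e051_nt.NotAutomatic
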